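import Pool.Agent.Helper66_D1.Stmts

/-!
# Squad PP, part D1: module FRW
-/

open scoped BigOperators

namespace Pool.Agent.PP.D1H21

open Pool.Agent.Helper51_AWC Pool.Agent.Helper79_WRA Pool.Agent.PP

/-- FRW -/
theorem frw : FrwStmt := by
  classical
  intro F _ K Ω _ _ _ _ S hS hfree
  let r : Ω → Ω := fun ω => Quotient.out (Quotient.mk (MulAction.orbitRel K Ω) ω)
  have hr : ∀ ω, ∃ k : K, r ω = k • ω := by
    intro ω
    have h : (MulAction.orbitRel K Ω).r (r ω) ω :=
      Quotient.exact (Quotient.out_eq (Quotient.mk (MulAction.orbitRel K Ω) ω))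
    obtain ⟨k, hk⟩ := (MulAction.orbitRel_apply.1 h)
    exact ⟨k, hk.symm⟩
  have hrk : ∀ (k : K) ω, r (k • ω) = r ω := by
    intro k ω
    have h : Quotient.mk (MulAction.orbitRel K Ω) (k • ω) =
        Quotient.mk (MulAction.orbitRel K Ω) ω :=
      Quotient.sound (MulAction.orbitRel_apply.2 ⟨k, rfl⟩)
    show Quotient.out _ = Quotient.out _
    rw [h]
  refine ⟨fun ω => if ω ∈ S ∧ ω = r ω then 1 else 0, ?_, ?_⟩
  · intro ω hω
    exact if_neg fun h => hω h.1
  · intro ω hω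
    obtain ⟨k₀, hk₀⟩ := hr ω
    rw [finsum_eq_single _ k₀]
    · refine if_pos ⟨hS k₀ ω hω, ?_⟩
      rw [hrk, hk₀]
    · intro k hk
      refine if_neg fun h => hk ?_
      have h1 : k • ω = k₀ • ω := by
        rw [h.2, hrk, hk₀]
      have h2 : (k₀⁻¹ * k) • ω = ω := by
        rw [mul_smul, h1, inv_smul_smul]
      have h3 := hfree _ ω hω h2
      rw [inv_mul_eq_one] at h3
      exact h3.symm

end Pool.Agent.PP.D1H21
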