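import Pool.Agent.Helper66_D1.Stmts

/-!
# Squad PP, part D1: module WGT
-/

open scoped BigOperators

namespace Pool.Agent.PP.D1H21

open Pool.Agent.Helper51_AWC Pool.Agent.Helper79_WRA Pool.Agent.PP

section

variable {F : Type} [Field F] {G : Type} [Group G] {N P : Subgroup G}

theorem isw_inv {c : G → F} (hPN : P ≤ N) (hc : IsW N P c) [Fintype P] (g : G) [Decidable (g ∈ N)] :
    ∑ p : P, c (g * (p : G)⁻¹) = if g ∈ N then 1 else 0 := by
  split_ifs with hg
  · have h := hc.sum g hg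
    rw [finsum_eq_sum_of_fintype] at h
    rw [← h]
    exact Fintype.sum_equiv (Equiv.inv P) _ _ fun p => rfl
  · refine Finset.sum_eq_zero fun p _ => hc.supp _ fun h => hg ?_
    have h1 := N.mul_mem h (hPN p.2)
    rwa [inv_mul_cancel_right] at h1

/-- W2 -/
theorem w2 [Fintype G] {c : G → F} (hPN : P ≤ N) (hc : IsW N P c) [Fintype P]
    [DecidablePred (· ∈ N)] {A : Type*} [AddCommGroup A] [Module F A] (h : G → A) :
    ∑ g, c g • ∑ p : P, h (g * p) = ∑ g, if g ∈ N then h g else 0 := by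
  calc ∑ g, c g • ∑ p : P, h (g * p) = ∑ g, ∑ p : P, c g • h (g * p) := by
        refine Finset.sum_congr rfl fun g _ => ?_
        rw [Finset.smul_sum]
    _ = ∑ p : P, ∑ g, c g • h (g * p) := Finset.sum_comm
    _ = ∑ p : P, ∑ g, c (g * (p : G)⁻¹) • h g := by
        refine Finset.sum_congr rfl fun p _ => ?_
        refine Fintype.sum_equiv (Equiv.mulRight (p : G)) _ _ fun g => ?_
        show c g • h (g * p) = c (g * p * (p : G)⁻¹) • h (g * p)
        rw [mul_inv_cancel_right]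
    _ = ∑ g, ∑ p : P, c (g * (p : G)⁻¹) • h g := Finset.sum_comm
    _ = ∑ g, if g ∈ N then h g else 0 := by
        refine Finset.sum_congr rfl fun g _ => ?_
        rw [← Finset.sum_smul, isw_inv hPN hc]
        split_ifs
        · rw [one_smul]
        · rw [zero_smul]

/-- W1 -/
theorem w1 [Fintype G] {c c' : G → F} (hPN : P ≤ N) (hc : IsW N P c) (hc' : IsW N P c')
    {A : Type*} [AddCommGroup A] [Module F A] (h : G → A) (hh : ∀ g, ∀ p ∈ P, h (g * p) = h g) :
    ∑ g, c g • h g = ∑ g, c' g • h g := by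
  classical
  have : Fintype P := Fintype.ofFinite P
  have h1 := w2 hPN hc (fun g => c' g • h g)
  calc ∑ g, c g • h g = ∑ g, c g • ∑ p : P, c' (g * p) • h (g * p) := by
        refine Finset.sum_congr rfl fun g _ => ?_
        by_cases hg : g ∈ N
        · have h2 := hc'.sum g hg
          rw [finsum_eq_sum_of_fintype] at h2
          have h3 : ∑ p : P, c' (g * p) • h (g * p) = ∑ p : P, c' (g * p) • h g := by
            refine Finset.sum_congr rfl fun p _ => ?_
            rw [hh g p p.2]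
          rw [h3, ← Finset.sum_smul, h2, one_smul]
        · rw [hc.supp g hg, zero_smul, zero_smul]
    _ = ∑ g, if g ∈ N then c' g • h g else 0 := h1
    _ = ∑ g, c' g • h g := by
        refine Finset.sum_congr rfl fun g _ => ?_
        split_ifs with hg
        · rfl
        · rw [hc'.supp g hg, zero_smul]

end

/-- WGT -/
theorem wgt (frw : FrwStmt) : WgtStmt := by
  classical
  intro F _ G _ _ N P hPN
  have fG : Fintype G := Fintype.ofFinite G
  have fP : Fintype P := Fintype.ofFinite P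
  have fN : Fintype N := Fintype.ofFinite N
  refine ⟨?_, ?_⟩
  · let act : MulAction P G :=
      { smul := fun p g => g * (p : G)⁻¹
        one_smul := fun g => by
          show g * ((1 : P) : G)⁻¹ = g
          simp
        mul_smul := fun p q g => by
          show g * ((p * q : P) : G)⁻¹ = g * (q : G)⁻¹ * (p : G)⁻¹
          simp [mul_assoc] }
    obtain ⟨d, hd1, hd2⟩ := @frw F _ P G _ _ _ act (N : Set G)
      (fun p g hg => N.mul_mem hg (N.inv_mem (hPN p.2)))
      (fun p g _ h => by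
        have h' : g * (p : G)⁻¹ = g := h
        rw [mul_eq_left, inv_eq_one] at h'
        exact Subtype.ext h')
    refine ⟨d, hd1, fun g hg => ?_⟩
    have h := hd2 g hg
    rw [finsum_eq_sum_of_fintype] at h ⊢
    rw [← h]
    refine Fintype.sum_equiv (Equiv.inv P) _ _ fun p => ?_
    show d (g * p) = d (g * ((p⁻¹ : P) : G)⁻¹)
    simp
  · intro V V' _ _ _ _ ρ ρ' c hc
    have htr : ∀ (c : G → F) (φ : V →ₗ[F] V'),
        trW c ρ ρ' φ = ∑ g : G, c g • (ρ' g ∘ₗ φ ∘ₗ ρ g⁻¹) := by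
      intro c φ
      unfold trW
      rw [finsum_eq_sum_of_fintype]
    refine ⟨?_, ?_⟩
    · intro φ hφ
      have hinv : ∀ g, ∀ p ∈ P, (ρ' (g * p) ∘ₗ φ ∘ₗ ρ (g * p)⁻¹) = ρ' g ∘ₗ φ ∘ₗ ρ g⁻¹ := by
        intro g p hp
        refine LinearMap.ext fun v => ?_
        show ρ' (g * p) (φ (ρ (g * p)⁻¹ v)) = ρ' g (φ (ρ g⁻¹ v))
        have h1 := hφ p⁻¹ (P.inv_mem hp) (ρ g⁻¹ v)
        rw [mul_inv_rev, map_mul, map_mul, Module.End.mul_apply, Module.End.mul_apply, h1,
          ← Module.End.mul_apply (ρ' p), ← map_mul, mul_inv_cancel, map_one, Module.End.one_apply]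
      have hind : ∀ c' : G → F, IsW N P c' → trW c' ρ ρ' φ = trW c ρ ρ' φ := by
        intro c' hc'
        rw [htr, htr]
        exact w1 hPN hc' hc _ hinv
      refine ⟨?_, hind⟩
      intro n hn v
      have hc'' : IsW N P (fun g => c (n⁻¹ * g)) := by
        refine ⟨fun g hg => hc.supp _ fun h => hg ?_, fun g hg => ?_⟩
        · have := N.mul_mem hn h
          rwa [mul_inv_cancel_left] at this
        · have := hc.sum (n⁻¹ * g) (N.mul_mem (N.inv_mem hn) hg)
          rw [← this]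
          refine finsum_congr fun p => ?_
          rw [mul_assoc]
      have h1 := hind _ hc''
      have h2 : trW (fun g => c (n⁻¹ * g)) ρ ρ' φ (ρ n v) = ρ' n (trW c ρ ρ' φ v) := by
        rw [htr, htr, LinearMap.sum_apply, LinearMap.sum_apply, map_sum]
        refine (Fintype.sum_equiv (Equiv.mulLeft n) _ _ fun g => ?_).symm
        show ρ' n (c g • ρ' g (φ (ρ g⁻¹ v))) =
          c (n⁻¹ * (n * g)) • ρ' (n * g) (φ (ρ (n * g)⁻¹ (ρ n v)))
        rw [inv_mul_cancel_left, map_smul, map_mul, Module.End.mul_apply, mul_inv_rev,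
          ← Module.End.mul_apply (ρ (g⁻¹ * n⁻¹)), ← map_mul, inv_mul_cancel_right]
      rw [← h2, h1]
    · intro ψ
      rw [htr]
      unfold trP
      rw [finsum_eq_sum_of_fintype, finsum_eq_sum_of_fintype]
      have h1 : ∀ g : G, c g • (ρ' g ∘ₗ (∑ p : P, ρ' p ∘ₗ ψ ∘ₗ ρ (p : G)⁻¹) ∘ₗ ρ g⁻¹) =
          c g • ∑ p : P, (ρ' (g * p) ∘ₗ ψ ∘ₗ ρ (g * (p : G))⁻¹) := by
        intro g
        congr 1
        refine LinearMap.ext fun v => ?_
        show ρ' g ((∑ p : P, ρ' p ∘ₗ ψ ∘ₗ ρ (p : G)⁻¹) (ρ g⁻¹ v)) = _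
        rw [LinearMap.sum_apply, LinearMap.sum_apply, map_sum]
        refine Finset.sum_congr rfl fun p _ => ?_
        show ρ' g (ρ' p (ψ (ρ (p : G)⁻¹ (ρ g⁻¹ v)))) = ρ' (g * p) (ψ (ρ (g * (p : G))⁻¹ v))
        rw [mul_inv_rev, map_mul, map_mul, Module.End.mul_apply, Module.End.mul_apply]
      rw [Finset.sum_congr rfl fun g _ => h1 g,
        w2 hPN hc (fun g => ρ' g ∘ₗ ψ ∘ₗ ρ g⁻¹), ← Finset.sum_filter]
      exact Finset.sum_subtype (Finset.univ.filter (· ∈ N)) (by simp)
        (fun g => ρ' g ∘ₗ ψ ∘ₗ ρ g⁻¹)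

end Pool.Agent.PP.D1H21
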